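import Pool.Agent.Q217.MTL.Tab

set_option autoImplicit false

/-!
# There is no least axiomatic extension of MTL with deductive interpolation

We give two MTL-chains `B` and `C` with 11 elements. In both of them different elements have different
types, so their logics have the DIP. They share a subalgebra `A` with elements `b < c`, `p < q`, and
there are `x ∈ B`, `y ∈ C` with `b x = p`, `c x < q`, `b y < p`, `c y = q`. So from
`p → b x` and `(q → c x) → c` MTL derives `(p → b y) ∨ ((q → c y) → c)`, without interpolant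
in any logic contained in the logics of `B` and of `C`.
-/

namespace Pool.Agent.Results.MP_acc005_lc.NoLeastExtension

open Pool.Agent.Q217.FL Pool.Agent.Q217.MTL

/-- Lookup. -/
def look (L : List (List (Fin 11))) (a b : Fin 11) : Fin 11 := (L.getD a []).getD b 0

/-- The product of `B`. -/
def mulLB : List (List (Fin 11)) :=
  [[0, 0, 0, 0, 0, 0, 0, 0, 0, 0, 0],
   [0, 0, 0, 0, 0, 0, 0, 0, 0, 0, 1],
   [0, 0, 0, 0, 0, 0, 0, 0, 0, 0, 2],
   [0, 0, 0, 0, 0, 0, 0, 0, 0, 0, 3],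
   [0, 0, 0, 0, 0, 0, 0, 0, 0, 0, 4],
   [0, 0, 0, 0, 0, 1, 1, 1, 1, 1, 5],
   [0, 0, 0, 0, 0, 1, 1, 1, 1, 2, 6],
   [0, 0, 0, 0, 0, 1, 1, 2, 2, 3, 7],
   [0, 0, 0, 0, 0, 1, 1, 2, 2, 4, 8],
   [0, 0, 0, 0, 0, 1, 2, 3, 4, 4, 9],
   [0, 1, 2, 3, 4, 5, 6, 7, 8, 9, 10]]

/-- The residual of `B`. -/
def resLB : List (List (Fin 11)) :=
  [[10, 10, 10, 10, 10, 10, 10, 10, 10, 10, 10],
   [9, 10, 10, 10, 10, 10, 10, 10, 10, 10, 10],
   [9, 9, 10, 10, 10, 10, 10, 10, 10, 10, 10],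
   [9, 9, 9, 10, 10, 10, 10, 10, 10, 10, 10],
   [9, 9, 9, 9, 10, 10, 10, 10, 10, 10, 10],
   [4, 9, 9, 9, 9, 10, 10, 10, 10, 10, 10],
   [4, 8, 9, 9, 9, 9, 10, 10, 10, 10, 10],
   [4, 6, 8, 9, 9, 9, 9, 10, 10, 10, 10],
   [4, 6, 8, 8, 9, 9, 9, 9, 10, 10, 10],
   [4, 5, 6, 7, 9, 9, 9, 9, 9, 10, 10],
   [0, 1, 2, 3, 4, 5, 6, 7, 8, 9, 10]]

/-- The product of `C`. -/
def mulLC : List (List (Fin 11)) :=
  [[0, 0, 0, 0, 0, 0, 0, 0, 0, 0, 0],
   [0, 0, 0, 0, 0, 0, 0, 0, 0, 0, 1],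
   [0, 0, 0, 0, 0, 0, 0, 0, 0, 0, 2],
   [0, 0, 0, 0, 0, 0, 0, 0, 0, 0, 3],
   [0, 0, 0, 0, 0, 0, 0, 0, 0, 0, 4],
   [0, 0, 0, 0, 0, 1, 1, 1, 1, 1, 5],
   [0, 0, 0, 0, 0, 1, 1, 1, 1, 3, 6],
   [0, 0, 0, 0, 0, 1, 1, 2, 2, 4, 7],
   [0, 0, 0, 0, 0, 1, 1, 2, 3, 4, 8],
   [0, 0, 0, 0, 0, 1, 3, 4, 4, 4, 9],
   [0, 1, 2, 3, 4, 5, 6, 7, 8, 9, 10]]

/-- The residual of `C`. -/
def resLC : List (List (Fin 11)) :=
  [[10, 10, 10, 10, 10, 10, 10, 10, 10, 10, 10],
   [9, 10, 10, 10, 10, 10, 10, 10, 10, 10, 10],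
   [9, 9, 10, 10, 10, 10, 10, 10, 10, 10, 10],
   [9, 9, 9, 10, 10, 10, 10, 10, 10, 10, 10],
   [9, 9, 9, 9, 10, 10, 10, 10, 10, 10, 10],
   [4, 9, 9, 9, 9, 10, 10, 10, 10, 10, 10],
   [4, 8, 8, 9, 9, 9, 10, 10, 10, 10, 10],
   [4, 6, 8, 8, 9, 9, 9, 10, 10, 10, 10],
   [4, 6, 7, 8, 9, 9, 9, 9, 10, 10, 10],
   [4, 5, 5, 6, 9, 9, 9, 9, 9, 10, 10],
   [0, 1, 2, 3, 4, 5, 6, 7, 8, 9, 10]]

/-- The chain `B`. -/
def tB : Tab where
  mul := look mulLB
  res := look resLB
  comm := by decide +kernel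
  assoc := by decide +kernel
  one_mul := by decide +kernel
  resid := by decide +kernel
  cube := by decide +kernel

/-- The chain `C`. -/
def tC : Tab where
  mul := look mulLC
  res := look resLC
  comm := by decide +kernel
  assoc := by decide +kernel
  one_mul := by decide +kernel
  resid := by decide +kernel
  cube := by decide +kernel

/-- The variable `0`. -/
def X : Fml := .var 0

/-- `¬ X` -/
def nX : Fml := .imp X .f

/-- `X ²` -/
def XX : Fml := .mul X X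

/-- `(¬ X → X)` -/
def W : Fml := .imp nX X

/-- Formulas that separate the elements of both chains. -/
def sepL : List Fml :=
  [X, .imp X nX, .imp (.imp nX .f) X, .imp (.imp X nX) (.imp X XX), .imp (.imp X XX) X,
    .imp X (.mul W W), .imp (.imp (.imp X XX) XX) X,
    .imp (.mul W W) (.mul W (.imp nX (.mul W W))),
    .imp nX (.mul X (.imp X nX)), .imp X (.mul nX W)]

theorem sepB : ∀ a a' : Fin 11, a ≠ a' →
    ∃ δ ∈ sepL, ¬ (evalT tB (fun _ => a) δ = 10 ↔ evalT tB (fun _ => a') δ = 10) := by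
  decide +kernel

theorem sepC : ∀ a a' : Fin 11, a ≠ a' →
    ∃ δ ∈ sepL, ¬ (evalT tC (fun _ => a) δ = 10 ↔ evalT tC (fun _ => a') δ = 10) := by
  decide +kernel

/-- The isomorphism of the two copies of the common subalgebra. -/
def iota (a : Fin 11) : Fin 11 := if a = 2 then 3 else a

/-- The universe of the common subalgebra in `B`. -/
def inA (a : Fin 11) : Prop := a ≠ 3 ∧ a ≠ 7

instance (a : Fin 11) : Decidable (inA a) := inferInstanceAs (Decidable (a ≠ 3 ∧ a ≠ 7))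

theorem iota_mul : ∀ a b : Fin 11, inA a → inA b →
    inA (look mulLB a b) ∧ look mulLC (iota a) (iota b) = iota (look mulLB a b) := by
  decide +kernel

theorem iota_res : ∀ a b : Fin 11, inA a → inA b →
    inA (look resLB a b) ∧ look resLC (iota a) (iota b) = iota (look resLB a b) := by
  decide +kernel

theorem iota_min : ∀ a b : Fin 11, inA a → inA b →
    inA (min a b) ∧ min (iota a) (iota b) = iota (min a b) := by
  decide +kernel

theorem iota_max : ∀ a b : Fin 11, inA a → inA b →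
    inA (max a b) ∧ max (iota a) (iota b) = iota (max a b) := by
  decide +kernel

/-- The valuation in `B`: `p, q, b, c, x`. -/
def vB (n : ℕ) : Fin 11 := [2, 4, 8, 9, 7, 0].getD n 0

/-- The valuation in `C`: `p, q, b, c, -, y`. -/
def vC (n : ℕ) : Fin 11 := [3, 4, 8, 9, 0, 7].getD n 0

theorem common (δ : Fml) (h : ∀ n ∈ δ.vars, n < 4) :
    inA (evalT tB vB δ) ∧ evalT tC vC δ = iota (evalT tB vB δ) := by
  induction δ with
  | var n =>
    have hn : n < 4 := h n rfl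
    change inA (vB n) ∧ vC n = iota (vB n)
    interval_cases n <;> decide
  | and φ ψ ih1 ih2 =>
    obtain ⟨h1, h2⟩ := ih1 fun n hn => h n (Or.inl hn)
    obtain ⟨h3, h4⟩ := ih2 fun n hn => h n (Or.inr hn)
    rw [evalT, evalT, h2, h4]
    exact iota_min _ _ h1 h3
  | or φ ψ ih1 ih2 =>
    obtain ⟨h1, h2⟩ := ih1 fun n hn => h n (Or.inl hn)
    obtain ⟨h3, h4⟩ := ih2 fun n hn => h n (Or.inr hn)
    rw [evalT, evalT, h2, h4]
    exact iota_max _ _ h1 h3
  | mul φ ψ ih1 ih2 =>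
    obtain ⟨h1, h2⟩ := ih1 fun n hn => h n (Or.inl hn)
    obtain ⟨h3, h4⟩ := ih2 fun n hn => h n (Or.inr hn)
    rw [evalT, evalT, h2, h4]
    exact iota_mul _ _ h1 h3
  | imp φ ψ ih1 ih2 =>
    obtain ⟨h1, h2⟩ := ih1 fun n hn => h n (Or.inl hn)
    obtain ⟨h3, h4⟩ := ih2 fun n hn => h n (Or.inr hn)
    rw [evalT, evalT, h2, h4]
    exact iota_res _ _ h1 h3
  | e => exact ⟨by decide, rfl⟩
  | f => exact ⟨by decide, rfl⟩

/-- The first premise `p → b x`. -/
def g1 : Fml := .imp (.var 0) (.mul (.var 2) (.var 4))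

/-- The second premise `(q → c x) → c`. -/
def g2 : Fml := .imp (.imp (.var 1) (.mul (.var 3) (.var 4))) (.var 3)

/-- The conclusion `(p → b y) ∨ ((q → c y) → c)`. -/
def concl : Fml :=
  .or (.imp (.var 0) (.mul (.var 2) (.var 5)))
    (.imp (.imp (.var 1) (.mul (.var 3) (.var 5))) (.var 3))

section mtl

variable {A : Type} [MTLAlgebra A]

theorem mul_mono {a b : A} (c : A) (h : a ≤ b) : c * a ≤ c * b :=
  (FLewAlgebra.mul_le_iff c a (c * b)).2
    (h.trans ((FLewAlgebra.mul_le_iff c b (c * b)).1 le_rfl))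

theorem mul_res_le (a b : A) : a * FLewAlgebra.res a b ≤ b :=
  (FLewAlgebra.mul_le_iff a _ b).2 le_rfl

theorem le_of_res {a b : A} (h : FLewAlgebra.res a b = 1) : a ≤ b := by
  have h1 := mul_res_le a b
  rwa [h, mul_one] at h1

theorem derive (p q b c x y : A) (h1 : p ≤ b * x)
    (h2 : FLewAlgebra.res q (c * x) ≤ c) :
    FLewAlgebra.res p (b * y) ⊔ FLewAlgebra.res (FLewAlgebra.res q (c * y)) c = 1 := by
  have h3 : FLewAlgebra.res x y ≤ FLewAlgebra.res p (b * y) := by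
    rw [← FLewAlgebra.mul_le_iff, mul_comm]
    refine (mul_mono _ h1).trans ?_
    rw [mul_left_comm, mul_comm _ x]
    exact mul_mono _ (mul_res_le x y)
  have h4 : FLewAlgebra.res y x ≤ FLewAlgebra.res (FLewAlgebra.res q (c * y)) c := by
    rw [← FLewAlgebra.mul_le_iff]
    refine le_trans ?_ h2
    rw [← FLewAlgebra.mul_le_iff, ← mul_assoc, mul_comm]
    refine (mul_mono _ (mul_res_le q (c * y))).trans ?_
    rw [mul_left_comm, mul_comm _ y]
    exact mul_mono _ (mul_res_le y x)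
  refine le_antisymm ?_ ?_
  · rw [FLewAlgebra.one_eq_top]
    exact le_top
  · rw [← MTLAlgebra.prelin x y]
    exact sup_le_sup h3 h4

end mtl

theorem mtl_derives : MTL {g1, g2} concl := by
  intro A _ v hv
  have h1 := hv g1 (by simp)
  have h2 := hv g2 (by simp)
  exact derive _ _ _ _ _ _ (le_of_res h1) (le_of_res h2)

/-- There is no least axiomatic extension of MTL with the deductive interpolation property. -/
theorem result :
    ¬ ∃ R₀ : Set Fml → Fml → Prop, MTLExtension R₀ ∧ DIP R₀ ∧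
      ∀ R : Set Fml → Fml → Prop, MTLExtension R → DIP R → ∀ Γ φ, R₀ Γ φ → R Γ φ := by
  rintro ⟨R, ⟨Ax, -, hAx⟩, hdip, hmin⟩
  have hB := hmin (Cons tB) (cons_ext tB) (cons_dip tB fun a a' h => by
    obtain ⟨δ, -, hδ⟩ := sepB a a' h
    exact ⟨δ, hδ⟩)
  have hC := hmin (Cons tC) (cons_ext tC) (cons_dip tC fun a a' h => by
    obtain ⟨δ, -, hδ⟩ := sepC a a' h
    exact ⟨δ, hδ⟩)
  have h1 : R {g1, g2} concl := by
    rw [hAx]
    intro A _ v hv
    exact mtl_derives A _ v fun γ hγ => hv γ (Or.inl hγ)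
  obtain ⟨Δ, hΔ, h2, h3⟩ := hdip _ _ h1
  have h4 : evalT tC vC concl = 10 := by
    refine hC _ _ h3 vC fun δ hδ => ?_
    have h5 : evalT tB vB δ = 10 := by
      refine hB _ _ (h2 δ hδ) vB fun γ hγ => ?_
      rcases hγ with rfl | hγ
      · decide +kernel
      · rw [Set.mem_singleton_iff.1 hγ]
        decide +kernel
    have h6 : ∀ n ∈ δ.vars, n < 4 := by
      intro n hn
      have h7 := hΔ ⟨δ, hδ, hn⟩
      have h8 : n ∈ varsOf {g1, g2} := h7.1
      have h9 : n ∈ concl.vars := h7.2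
      obtain ⟨γ, hγ, h10⟩ := h8
      simp only [Set.mem_insert_iff, Set.mem_singleton_iff] at hγ
      simp only [concl, Fml.vars, Set.mem_union, Set.mem_singleton_iff] at h9
      rcases hγ with rfl | rfl
      · simp only [g1, Fml.vars, Set.mem_union, Set.mem_singleton_iff] at h10
        omega
      · simp only [g2, Fml.vars, Set.mem_union, Set.mem_singleton_iff] at h10
        omega
    rw [(common δ h6).2, h5]
    rfl
  exact absurd h4 (by decide +kernel)

end Pool.Agent.Results.MP_acc005_lc.NoLeastExtension
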